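import Pool.Agent.H741.RS.PubM
import Pool.Agent.H741.RS.Stm

/-! Project RS of helper741, HOLB (helper138): holomorphic automorphisms of the ball are in PU(n,1). -/

set_option autoImplicit false
open scoped ComplexConjugate

namespace Pool.Agent.H138.RS.HOLB

open Pool.Agent.H741.RS Metric Set Filter Topology

theorem Bn_eq (n : ℕ) : Bn n = ball (0 : V n) 1 := by
  ext z
  simp [Bn]

theorem frac_of {n : ℕ} {A : (ℂ × V n) →ₗ[ℂ] (ℂ × V n)} {z w : V n} {c : ℂ} (hc : c ≠ 0)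
    (h : A (1, z) = c • ((1 : ℂ), w)) : frac A z = w := by
  unfold frac
  rw [h]
  simp only [Prod.smul_mk, smul_eq_mul, mul_one, smul_smul]
  rw [inv_mul_cancel₀ hc, one_smul]

theorem frac_comp (h1 : S_PRES) {n : ℕ} {B C : (ℂ × V n) →ₗ[ℂ] (ℂ × V n)} (hB : PresJ B) (hC : PresJ C)
    {z : V n} (hz : z ∈ Bn n) : frac (B ∘ₗ C) z = frac B (frac C z) := by
  obtain ⟨c0, cm, ce, -⟩ := (h1 n C hC).2 z hz
  obtain ⟨b0, -, be, -⟩ := (h1 n B hB).2 _ cm
  refine frac_of (c := (C (1, z)).1 * (B (1, frac C z)).1) (mul_ne_zero c0 b0) ?_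
  rw [LinearMap.comp_apply, ce, map_smul, be, smul_smul]
  simp only [Prod.smul_mk, smul_eq_mul, mul_one]

theorem presJ_comp {n : ℕ} {B C : (ℂ × V n) →ₗ[ℂ] (ℂ × V n)} (hB : PresJ B) (hC : PresJ C) :
    PresJ (B ∘ₗ C) := by
  intro X Y
  rw [LinearMap.comp_apply, LinearMap.comp_apply, hB, hC]

theorem frac_id {n : ℕ} (z : V n) : frac (LinearMap.id : (ℂ × V n) →ₗ[ℂ] (ℂ × V n)) z = z :=
  frac_of (c := 1) one_ne_zero (by simp)

theorem frac_diff (h1 : S_PRES) {n : ℕ} {A : (ℂ × V n) →ₗ[ℂ] (ℂ × V n)} (hA : PresJ A) :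
    DifferentiableOn ℂ (frac A) (Bn n) := by
  intro z hz
  obtain ⟨c0, -, -, -⟩ := (h1 n A hA).2 z hz
  have hf : Differentiable ℂ (fun z : V n => A.toContinuousLinearMap ((1 : ℂ), z)) :=
    A.toContinuousLinearMap.differentiable.comp ((differentiable_const _).prodMk differentiable_id)
  have h3 : DifferentiableAt ℂ (fun z : V n => (A.toContinuousLinearMap ((1 : ℂ), z)).1) z :=
    (differentiable_fst.comp hf) z
  have h4 : DifferentiableAt ℂ (fun z : V n => (A.toContinuousLinearMap ((1 : ℂ), z)).2) z :=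
    (differentiable_snd.comp hf) z
  have hd : DifferentiableAt ℂ (fun z : V n => ((A.toContinuousLinearMap ((1 : ℂ), z)).1)⁻¹ •
      (A.toContinuousLinearMap ((1 : ℂ), z)).2) z :=
    (h3.fun_inv c0).fun_smul h4
  exact hd.differentiableWithinAt

/-- the Schwarz lemma: automorphisms which fix the centre are linear isometries -/
theorem lin {n : ℕ} {g h : V n → V n} (hg : DifferentiableOn ℂ g (ball 0 1))
    (gm : MapsTo g (ball 0 1) (ball 0 1)) (g0 : g 0 = 0) (hh : DifferentiableOn ℂ h (ball 0 1))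
    (hm : MapsTo h (ball 0 1) (ball 0 1)) (h0 : h 0 = 0) (hgh : ∀ z ∈ ball (0 : V n) 1, h (g z) = z) :
    ∃ D : V n →ₗᵢ[ℂ] V n, ∀ z ∈ ball (0 : V n) 1, g z = D z := by
  have hnorm : ∀ z ∈ ball (0 : V n) 1, ‖g z‖ = ‖z‖ := by
    intro z hz
    apply le_antisymm
    · exact Complex.norm_le_norm_of_mapsTo_ball hg (gm.mono_right ball_subset_closedBall) g0
        (mem_ball_zero_iff.1 hz)
    · have h2 := Complex.norm_le_norm_of_mapsTo_ball hh (hm.mono_right ball_subset_closedBall) h0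
        (mem_ball_zero_iff.1 (gm hz))
      rwa [hgh z hz] at h2
  have hg' : HasFDerivAt g (fderiv ℂ g 0) 0 :=
    (hg.differentiableAt (ball_mem_nhds _ one_pos)).hasFDerivAt
  have key : ∀ v : V n, ‖v‖ = 1 → ∀ t : ℂ, ‖t‖ < 1 → g (t • v) = t • fderiv ℂ g 0 v := by
    intro v hv
    have hmem : ∀ t ∈ ball (0 : ℂ) 1, t • v ∈ ball (0 : V n) 1 := by
      intro t ht
      rw [mem_ball_zero_iff] at ht ⊢
      rw [norm_smul, hv, mul_one]
      exact ht
    have hφd : DifferentiableOn ℂ (fun t : ℂ => g (t • v)) (ball 0 1) :=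
      hg.comp (differentiable_id.smul_const v).differentiableOn hmem
    have hφ0 : g ((0 : ℂ) • v) = 0 := by rw [zero_smul, g0]
    have hφn : ∀ t ∈ ball (0 : ℂ) 1, ‖g (t • v)‖ = ‖t‖ := by
      intro t ht
      rw [hnorm _ (hmem t ht), norm_smul, hv, mul_one]
    have hhalf : (1 / 2 : ℂ) ∈ ball (0 : ℂ) 1 := by
      rw [mem_ball_zero_iff]
      norm_num
    have haff := Complex.affine_of_mapsTo_ball_of_norm_dslope_eq_div (f := fun t : ℂ => g (t • v))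
      (c := 0) (z₀ := 1 / 2) (R₁ := 1) (R₂ := 1) hφd
      (fun t ht => by
        show g (t • v) ∈ closedBall (g ((0 : ℂ) • v)) 1
        rw [hφ0, mem_closedBall_zero_iff, hφn t ht]
        exact (mem_ball_zero_iff.1 ht).le) hhalf
      (by
        rw [dslope_of_ne _ (by norm_num), slope_def_module, hφ0, sub_zero, sub_zero, norm_smul,
          hφn _ hhalf]
        norm_num)
    obtain ⟨c, hc⟩ : ∃ c, c = dslope (fun t : ℂ => g (t • v)) 0 (1 / 2) := ⟨_, rfl⟩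
    rw [← hc] at haff
    have hval : ∀ t : ℂ, ‖t‖ < 1 → g (t • v) = t • c := by
      intro t ht
      have h2 := haff (mem_ball_zero_iff.2 ht)
      simp only [hφ0, zero_add, sub_zero] at h2
      exact h2
    have hd1 : HasDerivAt (fun t : ℂ => g (t • v)) (fderiv ℂ g 0 v) 0 := by
      have h3 : HasDerivAt (fun t : ℂ => t • v) ((1 : ℂ) • v) 0 := (hasDerivAt_id (0 : ℂ)).smul_const v
      have h4 : HasFDerivAt g (fderiv ℂ g 0) ((0 : ℂ) • v) := by rw [zero_smul]; exact hg'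
      have h5 := h4.comp_hasDerivAt (0 : ℂ) h3
      rw [one_smul] at h5
      exact h5
    have hd2 : HasDerivAt (fun t : ℂ => g (t • v)) c 0 := by
      have h3 : HasDerivAt (fun t : ℂ => t • c) ((1 : ℂ) • c) 0 := (hasDerivAt_id (0 : ℂ)).smul_const c
      rw [one_smul] at h3
      refine h3.congr_of_eventuallyEq ?_
      filter_upwards [ball_mem_nhds (0 : ℂ) one_pos] with t ht
      exact hval t (mem_ball_zero_iff.1 ht)
    have hcD : fderiv ℂ g 0 v = c := hd1.unique hd2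
    intro t ht
    rw [hcD]
    exact hval t ht
  have hunit : ∀ z : V n, z ≠ 0 → ∃ v : V n, ‖v‖ = 1 ∧ z = ((‖z‖ : ℝ) : ℂ) • v := by
    intro z hz
    have hz0 : ‖z‖ ≠ 0 := norm_ne_zero_iff.2 hz
    refine ⟨(((‖z‖ : ℝ) : ℂ))⁻¹ • z, ?_, ?_⟩
    · rw [norm_smul, norm_inv, Complex.norm_real, norm_norm, inv_mul_cancel₀ hz0]
    · rw [smul_smul, mul_inv_cancel₀ (by exact_mod_cast hz0), one_smul]
  have hDn : ∀ z : V n, ‖fderiv ℂ g 0 z‖ = ‖z‖ := by
    intro z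
    by_cases hz : z = 0
    · rw [hz, map_zero]
    · obtain ⟨v, hv, hzv⟩ := hunit z hz
      have h3 := key v hv (1 / 2) (by norm_num)
      have h4 := hnorm ((1 / 2 : ℂ) • v) (by
        rw [mem_ball_zero_iff, norm_smul, hv]
        norm_num)
      rw [h3, norm_smul, norm_smul, hv] at h4
      have h5 : ‖fderiv ℂ g 0 v‖ = 1 := by
        have h6 : (0 : ℝ) < ‖(1 / 2 : ℂ)‖ := by norm_num
        exact mul_left_cancel₀ h6.ne' h4
      conv_lhs => rw [hzv]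
      rw [map_smul, norm_smul, h5, Complex.norm_real, norm_norm, mul_one]
  refine ⟨⟨(fderiv ℂ g 0).toLinearMap, hDn⟩, fun z hz => ?_⟩
  show g z = fderiv ℂ g 0 z
  by_cases hz0 : z = 0
  · rw [hz0, g0, map_zero]
  · obtain ⟨v, hv, hzv⟩ := hunit z hz0
    have h3 := key v hv ((‖z‖ : ℝ) : ℂ) (by
      rw [Complex.norm_real, norm_norm]
      exact mem_ball_zero_iff.1 hz)
    rw [← hzv] at h3
    rw [h3]
    conv_rhs => rw [hzv]
    rw [map_smul]

theorem t_HOLB (h1 : S_PRES) (h2 : S_EXT) : S_HOLB := by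
  rintro n γ ⟨γd, γm, δ, δd, δm, hγδ⟩
  have h0 : (0 : V n) ∈ Bn n := by
    rw [Bn_eq]
    exact mem_ball_self one_pos
  obtain ⟨a, ha⟩ : ∃ a, a = γ 0 := ⟨_, rfl⟩
  have ham : ‖a‖ < 1 := by
    rw [ha]
    exact γm h0
  obtain ⟨s, hs⟩ : ∃ s : ℝ, s = √(1 - ‖a‖ ^ 2) := ⟨_, rfl⟩
  have hpos : 0 < 1 - ‖a‖ ^ 2 := by
    have := norm_nonneg a
    nlinarith
  have hs0 : 0 < s := by rw [hs]; exact Real.sqrt_pos.2 hpos
  have hs2 : s ^ 2 = 1 - ‖a‖ ^ 2 := by rw [hs, Real.sq_sqrt hpos.le]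
  have hs0' : (s : ℂ) ≠ 0 := by exact_mod_cast hs0.ne'
  have hJ1 : J ((1 : ℂ), (0 : V n)) ((1 : ℂ), (0 : V n)) = 1 := by
    simp [J, hp]
  have hJ2 : J (((s : ℂ))⁻¹ • ((1 : ℂ), a)) (((s : ℂ))⁻¹ • ((1 : ℂ), a)) = 1 := by
    simp only [J, hp, Prod.smul_mk, smul_eq_mul, mul_one,
      inner_self_eq_norm_sq_to_K, map_inv₀, Complex.conj_ofReal]
    have hns : ‖((s : ℂ))⁻¹ • a‖ = s⁻¹ * ‖a‖ := by
      rw [norm_smul, norm_inv, Complex.norm_real, Real.norm_of_nonneg hs0.le]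
    rw [hns]
    have h3 : ((s : ℂ)) ^ 2 = 1 - ((‖a‖ : ℝ) : ℂ) ^ 2 := by exact_mod_cast hs2
    have h4 : ((‖a‖ : ℝ) : ℂ) ^ 2 = 1 - (s : ℂ) ^ 2 := by rw [h3]; ring
    show (s : ℂ)⁻¹ * (s : ℂ)⁻¹ - ((s⁻¹ * ‖a‖ : ℝ) : ℂ) ^ 2 = 1
    push_cast
    rw [mul_pow, h4]
    field_simp
    ring
  obtain ⟨B, hB, hBe⟩ := h2 n Unit (fun _ => ((1 : ℂ), (0 : V n))) (fun _ => ((s : ℂ))⁻¹ • ((1 : ℂ), a)) ()
    (fun _ _ => by rw [hJ1, hJ2]) (by rw [hJ1]; norm_num)
  have hB0 : frac B 0 = a := frac_of (inv_ne_zero hs0') (hBe ()).symm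
  obtain ⟨A', hA', hAB, hBA⟩ := (h1 n B hB).1
  have hAB' : ∀ z ∈ Bn n, frac A' (frac B z) = z := fun z hz => by
    rw [← frac_comp h1 hA' hB hz, hAB, frac_id]
  have hBA' : ∀ z ∈ Bn n, frac B (frac A' z) = z := fun z hz => by
    rw [← frac_comp h1 hB hA' hz, hBA, frac_id]
  have hAm : MapsTo (frac A') (Bn n) (Bn n) := fun z hz => ((h1 n A' hA').2 z hz).2.1
  have hBm : MapsTo (frac B) (Bn n) (Bn n) := fun z hz => ((h1 n B hB).2 z hz).2.1
  obtain ⟨D, hD⟩ := lin (n := n) (g := fun z => frac A' (γ z)) (h := fun z => δ (frac B z))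
    (by rw [← Bn_eq]; exact (frac_diff h1 hA').comp γd γm)
    (by rw [← Bn_eq]; exact hAm.comp γm)
    (by
      show frac A' (γ 0) = 0
      rw [← ha, ← hB0, hAB' 0 h0])
    (by rw [← Bn_eq]; exact δd.comp (frac_diff h1 hB) hBm)
    (by rw [← Bn_eq]; exact δm.comp hBm)
    (by
      show δ (frac B 0) = 0
      rw [hB0, ha, (hγδ 0 h0).1])
    (by
      rw [← Bn_eq]
      intro z hz
      show δ (frac B (frac A' (γ z))) = z
      rw [hBA' _ (γm hz), (hγδ z hz).1])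
  rw [← Bn_eq] at hD
  obtain ⟨C, hC⟩ : ∃ C : (ℂ × V n) →ₗ[ℂ] (ℂ × V n), C = LinearMap.prodMap LinearMap.id D.toLinearMap := ⟨_, rfl⟩
  have hCv : ∀ X, C X = (X.1, D X.2) := fun X => by rw [hC]; rfl
  have hCJ : PresJ C := by
    intro X Y
    rw [hCv, hCv]
    show X.1 * conj Y.1 - inner ℂ (D Y.2) (D X.2) = X.1 * conj Y.1 - inner ℂ Y.2 X.2
    rw [D.inner_map_map]
  have hCf : ∀ z, frac C z = D z := fun z => frac_of (c := 1) one_ne_zero (by rw [hCv, one_smul])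
  refine ⟨B ∘ₗ C, presJ_comp hB hCJ, fun z hz => ?_⟩
  rw [frac_comp h1 hB hCJ hz, hCf, ← hD z hz, hBA' _ (γm hz)]

end Pool.Agent.H138.RS.HOLB

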